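import Pool.Agent.K7.H74.AG.Stm

/-!
# Project AG, job V3: the variance for `k + 1` variables (helper99)
-/

set_option autoImplicit false

open MeasureTheory Finset

namespace Pool.Agent.K7.H99.AG

open Pool.Agent.K7.H74.AG
open Pool.Agent.K7.H74.AF (lo blk Box mx e)

theorem continuous_e : Continuous e := by
  unfold e
  fun_prop

theorem continuous_SB (k c : ℕ) : Continuous (SB k c) := by
  unfold SB
  apply continuous_finset_sum
  intro x _
  exact continuous_e.comp (by fun_prop)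

theorem continuous_MB (k c : ℕ) : Continuous (MB k c) := by
  unfold MB
  apply intervalIntegral.continuous_parametric_intervalIntegral_of_continuous'
  exact continuous_e.comp (by fun_prop)

theorem sinc_bound (x : ℝ) : Real.sinc x ^ 2 ≤ 2 * (1 + x ^ 2)⁻¹ := by
  have h1 : |Real.sinc x| ≤ 1 := Real.abs_sinc_le_one x
  have h2 : Real.sinc x ^ 2 ≤ 1 := by
    rw [← sq_abs]; exact pow_le_one₀ (abs_nonneg _) h1
  have h3 : x ^ 2 * Real.sinc x ^ 2 ≤ 1 := by
    rcases eq_or_ne x 0 with h | h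
    · subst h; norm_num
    · rw [Real.sinc_of_ne_zero h, div_pow, mul_div_cancel₀]
      · exact Real.sin_sq_le_one x
      · positivity
  rw [← div_eq_mul_inv, le_div_iff₀ (by positivity)]
  nlinarith

/-- the numerical estimate -/
theorem num {k : ℕ} (hk : 2 ≤ k) {L Z a : ℝ} (hL : 1 ≤ L) (hZ : 1 ≤ Z) (ha : 0 < a) :
    (L * (Z + Z ^ ((k : ℝ) / 2 + 1) * a ^ (1 / 2 : ℝ))) * (2 * L * min (Z ^ 2) (a ^ (-(2 : ℝ) / k))) ^ k ≤
      8 * L * (2 * L) ^ k * Z ^ (2 * k + 1) * (1 + Z ^ k * a) ^ (-(3 / 2) : ℝ) := by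
  have hZ0 : 0 < Z := by linarith
  have hL0 : 0 < L := by linarith
  have hk0 : (0 : ℝ) < k := by exact_mod_cast (by omega : 0 < k)
  set p := a ^ (-(2 : ℝ) / k) with hp
  have hp0 : 0 < p := Real.rpow_pos_of_pos ha _
  set q := min (Z ^ 2) p with hq
  have hq0 : 0 < q := lt_min (by positivity) hp0
  set D := L * (Z + Z ^ ((k : ℝ) / 2 + 1) * a ^ (1 / 2 : ℝ)) with hDdef
  set yy := Z ^ k * a with hy
  have hy0 : 0 < yy := by positivity
  -- bound of D
  have hDb : D ≤ L * Z * (2 * (1 + yy) ^ (1 / 2 : ℝ)) := by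
    have e1 : Z ^ ((k : ℝ) / 2 + 1) * a ^ (1 / 2 : ℝ) = Z * yy ^ (1 / 2 : ℝ) := by
      rw [hy, Real.mul_rpow (by positivity) ha.le, ← Real.rpow_natCast Z k, ← Real.rpow_mul hZ0.le,
        Real.rpow_add hZ0, Real.rpow_one]
      rw [show (k : ℝ) * (1 / 2) = (k : ℝ) / 2 by ring]
      ring
    have e2 : yy ^ (1 / 2 : ℝ) ≤ (1 + yy) ^ (1 / 2 : ℝ) :=
      Real.rpow_le_rpow hy0.le (by linarith) (by norm_num)
    have e3 : 1 ≤ (1 + yy) ^ (1 / 2 : ℝ) := Real.one_le_rpow (by linarith) (by norm_num)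
    rw [hDdef, e1]
    calc L * (Z + Z * yy ^ (1 / 2 : ℝ)) = L * Z * (1 + yy ^ (1 / 2 : ℝ)) := by ring
      _ ≤ L * Z * (2 * (1 + yy) ^ (1 / 2 : ℝ)) := by
        apply mul_le_mul_of_nonneg_left _ (by positivity)
        linarith
  -- bound of q ^ k
  have hqk : q ^ k ≤ 4 * Z ^ (2 * k) * (1 + yy) ^ (-2 : ℝ) := by
    have g1 : q ^ k ≤ Z ^ (2 * k) := by
      calc q ^ k ≤ (Z ^ 2) ^ k := pow_le_pow_left₀ hq0.le (min_le_left _ _) k
        _ = Z ^ (2 * k) := by rw [← pow_mul]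
    have g2 : q ^ k * a ^ 2 ≤ 1 := by
      have h1 : q ^ k ≤ p ^ k := pow_le_pow_left₀ hq0.le (min_le_right _ _) k
      have h2 : p ^ k * a ^ 2 = 1 := by
        rw [hp, ← Real.rpow_natCast (a ^ (-(2 : ℝ) / k)) k, ← Real.rpow_mul ha.le,
          ← Real.rpow_natCast a 2, ← Real.rpow_add ha]
        rw [show -(2 : ℝ) / k * k + ((2 : ℕ) : ℝ) = 0 by field_simp; norm_num]
        exact Real.rpow_zero a
      have h3 : q ^ k * a ^ 2 ≤ p ^ k * a ^ 2 := mul_le_mul_of_nonneg_right h1 (by positivity)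
      linarith
    have g3 : q ^ k * yy ^ 2 ≤ Z ^ (2 * k) := by
      have : q ^ k * yy ^ 2 = (q ^ k * a ^ 2) * Z ^ (2 * k) := by rw [hy]; ring
      rw [this]
      have : (0 : ℝ) ≤ Z ^ (2 * k) := by positivity
      nlinarith
    have hqk0 : 0 ≤ q ^ k := by positivity
    have g4 : q ^ k * (1 + yy) ^ 2 ≤ 4 * Z ^ (2 * k) := by
      nlinarith [mul_nonneg hqk0 (sq_nonneg (1 - yy))]
    have e : (1 + yy) ^ (-2 : ℝ) = ((1 + yy) ^ 2)⁻¹ := by
      rw [Real.rpow_neg (by positivity)]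
      norm_num
    rw [e, ← div_eq_mul_inv, le_div_iff₀ (by positivity)]
    exact g4
  have e4 : (1 + yy) ^ (1 / 2 : ℝ) * (1 + yy) ^ (-2 : ℝ) = (1 + yy) ^ (-(3 / 2) : ℝ) := by
    rw [← Real.rpow_add (by positivity)]
    norm_num
  calc D * (2 * L * q) ^ k = (2 * L) ^ k * (D * q ^ k) := by
        rw [mul_pow (2 * L) q k]; ring
    _ ≤ (2 * L) ^ k * ((L * Z * (2 * (1 + yy) ^ (1 / 2 : ℝ))) *
        (4 * Z ^ (2 * k) * (1 + yy) ^ (-2 : ℝ))) := by
        apply mul_le_mul_of_nonneg_left _ (by positivity)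
        exact mul_le_mul hDb hqk (by positivity) (by positivity)
    _ = 8 * L * (2 * L) ^ k * Z ^ (2 * k + 1) *
        ((1 + yy) ^ (1 / 2 : ℝ) * (1 + yy) ^ (-2 : ℝ)) := by ring
    _ = _ := by rw [e4]

instance (m : ℕ) : IsFiniteMeasure (seg m) := by
  unfold seg
  infer_instance

instance (m t : ℕ) : IsFiniteMeasure (cub m t) := by
  unfold cub
  infer_instance

theorem integrable_seg {m : ℕ} {f : ℝ → ℝ} (hf : Continuous f) : Integrable f (seg m) :=
  hf.integrableOn_Icc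

/-- the telescoping bound -/
theorem tele {n : ℕ} (S M : Fin n → ℂ) :
    ‖∏ i, S i - ∏ i, M i‖ ^ 2 ≤ n * ∑ i, ∏ j, (if j < i then ‖M j‖ ^ 2 else
      if j = i then ‖S j - M j‖ ^ 2 else ‖S j‖ ^ 2) := by
  have h := Finset.prod_sub_ordered (Finset.univ : Finset (Fin n)) S (fun i => S i - M i)
  simp only [sub_sub_cancel] at h
  have h2 : ∏ i, S i - ∏ i, M i =
      ∑ i, (S i - M i) * (∏ j with j < i, M j) * ∏ j with i < j, S j := by
    rw [h]; ring
  have h3 : ∀ i : Fin n, ∏ j, (if j < i then ‖M j‖ ^ 2 else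
      if j = i then ‖S j - M j‖ ^ 2 else ‖S j‖ ^ 2) =
      ‖(S i - M i) * (∏ j with j < i, M j) * ∏ j with i < j, S j‖ ^ 2 := by
    intro i
    rw [norm_mul, norm_mul, norm_prod, norm_prod, mul_pow, mul_pow, ← Finset.prod_pow, ← Finset.prod_pow,
      Finset.prod_filter, Finset.prod_filter]
    have e1 : ‖S i - M i‖ ^ 2 = ∏ j, if j = i then ‖S j - M j‖ ^ 2 else 1 := by
      rw [Finset.prod_ite_eq' Finset.univ i]; simp
    rw [e1, ← Finset.prod_mul_distrib, ← Finset.prod_mul_distrib]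
    apply Finset.prod_congr rfl
    intro j _
    rcases lt_trichotomy j i with hji | hji | hji
    · simp [hji, hji.ne, not_lt.2 hji.le]
    · subst hji; simp
    · simp [hji, hji.ne', not_lt.2 hji.le]
  simp only [h3]
  rw [h2]
  have h4 := norm_sum_le (Finset.univ : Finset (Fin n))
    (fun i => (S i - M i) * (∏ j with j < i, M j) * ∏ j with i < j, S j)
  have h5 := sq_sum_le_card_mul_sum_sq (s := (Finset.univ : Finset (Fin n)))
    (f := fun i => ‖(S i - M i) * (∏ j with j < i, M j) * ∏ j with i < j, S j‖)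
  simp only [Finset.card_univ, Fintype.card_fin] at h5
  exact (pow_le_pow_left₀ (norm_nonneg _) h4 2).trans h5

/-- the mean over the cube -/
theorem mean {m n : ℕ} (S M : Fin n → ℝ → ℂ) (hS : ∀ i, Continuous (S i)) (hM : ∀ i, Continuous (M i))
    {A D : ℝ} (_hA : 0 ≤ A) (_hD : 0 ≤ D) (h1 : ∀ i, ∫ a, ‖S i a‖ ^ 2 ∂(seg m) ≤ A)
    (h2 : ∀ i, ∫ a, ‖M i a‖ ^ 2 ∂(seg m) ≤ A) (h3 : ∀ i, ∫ a, ‖S i a - M i a‖ ^ 2 ∂(seg m) ≤ D) :
    ∫⁻ a : Fin n → ℝ, ENNReal.ofReal (‖∏ i, S i (a i) - ∏ i, M i (a i)‖ ^ 2) ∂(cub m n) ≤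
      ENNReal.ofReal (n * (n * (D * A ^ (n - 1)))) := by
  set h : Fin n → Fin n → ℝ → ℝ := fun i j a => if j < i then ‖M j a‖ ^ 2 else
      if j = i then ‖S j a - M j a‖ ^ 2 else ‖S j a‖ ^ 2 with hh
  have hc : ∀ i j, Continuous (h i j) := by
    intro i j
    simp only [hh]
    split_ifs
    · exact ((hM j).norm).pow 2
    · exact (((hS j).sub (hM j)).norm).pow 2
    · exact ((hS j).norm).pow 2
  have h0 : ∀ i j a, 0 ≤ h i j a := by
    intro i j a
    simp only [hh]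
    split_ifs <;> positivity
  have hint : ∀ i, Integrable (fun a : Fin n → ℝ => ∏ j, h i j (a j)) (cub m n) := by
    intro i
    unfold cub
    exact Integrable.fintype_prod (fun j => integrable_seg (hc i j))
  have hval : ∀ i, ∫ a : Fin n → ℝ, ∏ j, h i j (a j) ∂(cub m n) ≤ D * A ^ (n - 1) := by
    intro i
    unfold cub
    rw [integral_fintype_prod_eq_prod]
    calc ∏ j, ∫ a, h i j a ∂(seg m) ≤ ∏ j, (if j = i then D else A) := by
          apply Finset.prod_le_prod (fun j _ => integral_nonneg (h0 i j))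
          intro j _
          simp only [hh]
          by_cases c1 : j < i
          · simp only [c1, if_true, c1.ne, if_false]; exact h2 j
          · by_cases c2 : j = i
            · simp only [c2, lt_irrefl, if_false, if_true]; exact h3 i
            · simp only [c1, c2, if_false]; exact h1 j
      _ = D * A ^ (n - 1) := by
          rw [Finset.prod_ite, Finset.prod_const, Finset.prod_const]
          have e1 : (Finset.univ.filter fun j => j = i) = {i} := by ext j; simp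
          have e2 : (Finset.univ.filter fun j => ¬ j = i) = Finset.univ.erase i := by
            ext j; simp
          rw [e1, e2, Finset.card_singleton, pow_one, Finset.card_erase_of_mem (Finset.mem_univ i)]
          simp
  have hG : Integrable (fun a : Fin n → ℝ => (n : ℝ) * ∑ i, ∏ j, h i j (a j)) (cub m n) :=
    (integrable_finset_sum _ fun i _ => hint i).const_mul _
  calc ∫⁻ a : Fin n → ℝ, ENNReal.ofReal (‖∏ i, S i (a i) - ∏ i, M i (a i)‖ ^ 2) ∂(cub m n)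
      ≤ ∫⁻ a : Fin n → ℝ, ENNReal.ofReal ((n : ℝ) * ∑ i, ∏ j, h i j (a j)) ∂(cub m n) := by
        apply lintegral_mono
        intro a
        exact ENNReal.ofReal_le_ofReal (tele (fun i => S i (a i)) (fun i => M i (a i)))
    _ = ENNReal.ofReal (∫ a : Fin n → ℝ, (n : ℝ) * ∑ i, ∏ j, h i j (a j) ∂(cub m n)) := by
        rw [ofReal_integral_eq_lintegral_ofReal hG]
        filter_upwards with a
        exact mul_nonneg (Nat.cast_nonneg _) (Finset.sum_nonneg fun i _ => Finset.prod_nonneg fun j _ => h0 i j _)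
    _ ≤ _ := by
        apply ENNReal.ofReal_le_ofReal
        rw [integral_const_mul, integral_finset_sum _ fun i _ => hint i]
        apply mul_le_mul_of_nonneg_left _ (Nat.cast_nonneg _)
        calc ∑ i, ∫ a : Fin n → ℝ, ∏ j, h i j (a j) ∂(cub m n) ≤ ∑ _i : Fin n, D * A ^ (n - 1) :=
              Finset.sum_le_sum fun i _ => hval i
          _ = _ := by simp

theorem key1 {k m : ℕ} (hk : 2 ≤ k) {L Z C₂ α : ℝ} (b : Fin (k + 1) → ℕ) (hα : α ≠ 0) (hL1 : 1 ≤ L) (hZ1 : 1 ≤ Z)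
    (hCL : C₂ ≤ L)
    (h1 : ∀ i, (∫ a, ‖SB k (b i) (α * a)‖ ^ 2 ∂(seg m)) ≤ C₂ * Z ^ 2)
    (h2 : ∀ i, (∫ a, ‖MB k (b i) (α * a)‖ ^ 2 ∂(seg m)) ≤ C₂ * Z ^ 2)
    (h3 : ∀ i, (∫ a, ‖SB k (b i) (α * a)‖ ^ 2 ∂(seg m)) ≤ L * (Z + |α| ^ (-(2 : ℝ) / k)))
    (h4 : ∀ i, (∫ a, ‖MB k (b i) (α * a)‖ ^ 2 ∂(seg m)) ≤ L * (Z + |α| ^ (-(2 : ℝ) / k)))
    (h5 : ∀ i, (∫ a, ‖SB k (b i) (α * a) - MB k (b i) (α * a)‖ ^ 2 ∂(seg m)) ≤
      L * (Z + Z ^ ((k : ℝ) / 2 + 1) * |α| ^ (1 / 2 : ℝ))) :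
    ∃ X : ℝ, 0 ≤ X ∧ ∫⁻ a : Fin (k + 1) → ℝ, ENNReal.ofReal
      (‖∏ i, SB k (b i) (α * a i) - ∏ i, MB k (b i) (α * a i)‖ ^ 2) ∂(cub m (k + 1)) ≤
        ENNReal.ofReal ((k + 1) * ((k + 1) * X)) ∧
      ∀ s t : ℝ, 0 ≤ s → s ≤ 1 → s ≤ t → s * X ≤ (4 * (2 * L * Z) ^ (k + 1)) * t +
          8 * L * (2 * L) ^ k * Z ^ (2 * k + 1) * (1 + Z ^ k * |α|) ^ (-(3 / 2) : ℝ) := by
  have hα' : 0 < |α| := abs_pos.2 hα
  have hZ0 : 0 < Z := by linarith
  have hL0 : 0 < L := by linarith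
  have hcS : ∀ i, Continuous fun a : ℝ => SB k (b i) (α * a) := fun i => (continuous_SB k (b i)).comp (by fun_prop)
  have hcM : ∀ i, Continuous fun a : ℝ => MB k (b i) (α * a) := fun i => (continuous_MB k (b i)).comp (by fun_prop)
  have t2 : 0 ≤ 8 * L * (2 * L) ^ k * Z ^ (2 * k + 1) * (1 + Z ^ k * |α|) ^ (-(3 / 2) : ℝ) := by positivity
  set p := |α| ^ (-(2 : ℝ) / k) with hp
  have hp0 : 0 < p := Real.rpow_pos_of_pos hα' _
  rcases le_or_gt p Z with hpZ | hpZ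
  · have b1 : ∀ i, ∫ a, ‖SB k (b i) (α * a)‖ ^ 2 ∂(seg m) ≤ 2 * L * Z := by
      intro i
      have : L * (Z + p) ≤ 2 * L * Z := by nlinarith
      exact (h3 i).trans this
    have b2 : ∀ i, ∫ a, ‖MB k (b i) (α * a)‖ ^ 2 ∂(seg m) ≤ 2 * L * Z := by
      intro i
      have : L * (Z + p) ≤ 2 * L * Z := by nlinarith
      exact (h4 i).trans this
    have b3 : ∀ i, ∫ a, ‖SB k (b i) (α * a) - MB k (b i) (α * a)‖ ^ 2 ∂(seg m) ≤ 4 * (2 * L * Z) := by
      intro i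
      have i1 : Integrable (fun a => ‖SB k (b i) (α * a)‖ ^ 2) (seg m) := integrable_seg ((hcS i).norm.pow 2)
      have i2 : Integrable (fun a => ‖MB k (b i) (α * a)‖ ^ 2) (seg m) := integrable_seg ((hcM i).norm.pow 2)
      have i3 : Integrable (fun a => ‖SB k (b i) (α * a) - MB k (b i) (α * a)‖ ^ 2) (seg m) :=
        integrable_seg (((hcS i).sub (hcM i)).norm.pow 2)
      have : ∫ a, ‖SB k (b i) (α * a) - MB k (b i) (α * a)‖ ^ 2 ∂(seg m) ≤
          ∫ a, (2 * ‖SB k (b i) (α * a)‖ ^ 2 + 2 * ‖MB k (b i) (α * a)‖ ^ 2) ∂(seg m) := by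
        apply integral_mono i3 ((i1.const_mul 2).add (i2.const_mul 2))
        intro a
        have g := norm_sub_le (SB k (b i) (α * a)) (MB k (b i) (α * a))
        have g0 := norm_nonneg (SB k (b i) (α * a) - MB k (b i) (α * a))
        show ‖SB k (b i) (α * a) - MB k (b i) (α * a)‖ ^ 2 ≤
          2 * ‖SB k (b i) (α * a)‖ ^ 2 + 2 * ‖MB k (b i) (α * a)‖ ^ 2
        nlinarith [sq_nonneg (‖SB k (b i) (α * a)‖ - ‖MB k (b i) (α * a)‖)]
      rw [integral_add (i1.const_mul 2) (i2.const_mul 2), integral_const_mul, integral_const_mul] at this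
      linarith [b1 i, b2 i]
    have hmean := mean (m := m) (fun i a => SB k (b i) (α * a)) (fun i a => MB k (b i) (α * a)) hcS hcM
      (A := 2 * L * Z) (D := 4 * (2 * L * Z)) (by positivity) (by positivity) b1 b2 b3
    refine ⟨4 * (2 * L * Z) * (2 * L * Z) ^ k, by positivity, ?_, ?_⟩
    · simp only [Nat.add_sub_cancel] at hmean
      push_cast at hmean
      exact hmean
    · intro s t hs0 hs1 hst
      have : s * (4 * (2 * L * Z) * (2 * L * Z) ^ k) ≤ t * (4 * (2 * L * Z) * (2 * L * Z) ^ k) :=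
        mul_le_mul_of_nonneg_right hst (by positivity)
      have e3 : t * (4 * (2 * L * Z) * (2 * L * Z) ^ k) = 4 * (2 * L * Z) ^ (k + 1) * t := by ring
      linarith
  · set q := min (Z ^ 2) p with hq
    have hq0 : 0 < q := lt_min (by positivity) hp0
    have bq : ∀ x : ℝ, 0 ≤ x → x ≤ C₂ * Z ^ 2 → x ≤ L * (Z + p) → x ≤ 2 * L * q := by
      intro x hx0 hx1 hx2
      rw [hq]
      rcases le_total (Z ^ 2) p with h | h
      · rw [min_eq_left h]
        have h3 : C₂ * Z ^ 2 ≤ L * Z ^ 2 := mul_le_mul_of_nonneg_right hCL (by positivity)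
        nlinarith [mul_pos hL0 (sq_pos_of_pos hZ0)]
      · rw [min_eq_right h]
        nlinarith
    have hmean := mean (m := m) (fun i a => SB k (b i) (α * a)) (fun i a => MB k (b i) (α * a)) hcS hcM
      (A := 2 * L * q) (D := L * (Z + Z ^ ((k : ℝ) / 2 + 1) * |α| ^ (1 / 2 : ℝ))) (by positivity) (by positivity)
      (fun i => bq _ (integral_nonneg fun a => by positivity) (h1 i) (h3 i))
      (fun i => bq _ (integral_nonneg fun a => by positivity) (h2 i) (h4 i))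
      (fun i => h5 i)
    refine ⟨L * (Z + Z ^ ((k : ℝ) / 2 + 1) * |α| ^ (1 / 2 : ℝ)) * (2 * L * q) ^ k, by positivity, ?_, ?_⟩
    · simp only [Nat.add_sub_cancel] at hmean
      push_cast at hmean
      exact hmean
    · intro s t hs0 hs1 hst
      have hnum := num hk (L := L) (Z := Z) (a := |α|) hL1 hZ1 hα'
      rw [← hp, ← hq] at hnum
      have : s * (L * (Z + Z ^ ((k : ℝ) / 2 + 1) * |α| ^ (1 / 2 : ℝ)) * (2 * L * q) ^ k) ≤
          1 * (8 * L * (2 * L) ^ k * Z ^ (2 * k + 1) * (1 + Z ^ k * |α|) ^ (-(3 / 2) : ℝ)) :=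
        mul_le_mul hs1 hnum (by positivity) zero_le_one
      have t1 : 0 ≤ 4 * (2 * L * Z) ^ (k + 1) * t := by
        have : 0 ≤ t := hs0.trans hst
        positivity
      linarith

theorem majI {c Z K0 : ℝ} (k : ℕ) (A B η : ℝ) (hc0 : 0 < c) (hZ0 : 0 < Z)
    (hK0 : K0 = ∫ y : ℝ, (1 + ‖y‖) ^ (-(3 / 2) : ℝ)) :
    Integrable (fun α : ℝ => 4 * η ^ 2 * ((k + 1) * ((k + 1) * (A * (2 * (1 + (c * α) ^ 2)⁻¹) +
      B * (1 + ‖Z ^ k * α‖) ^ (-(3 / 2) : ℝ))))) ∧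
    ∫ α : ℝ, 4 * η ^ 2 * ((k + 1) * ((k + 1) * (A * (2 * (1 + (c * α) ^ 2)⁻¹) +
      B * (1 + ‖Z ^ k * α‖) ^ (-(3 / 2) : ℝ)))) =
      4 * η ^ 2 * ((k + 1) * ((k + 1) * (A * (2 * (|c⁻¹| * Real.pi)) + B * (|(Z ^ k)⁻¹| * K0)))) := by
  have hK0i : Integrable (fun y : ℝ => (1 + ‖y‖) ^ (-(3 / 2) : ℝ)) := by
    apply integrable_one_add_norm
    simp
    norm_num
  have i1 : Integrable (fun α : ℝ => (1 + (c * α) ^ 2)⁻¹) := by
    have := integrable_inv_one_add_sq.comp_mul_left' hc0.ne'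
    exact this
  have i2 : Integrable (fun α : ℝ => (1 + ‖Z ^ k * α‖) ^ (-(3 / 2) : ℝ)) := by
    have := hK0i.comp_mul_left' (R := Z ^ k) (by positivity)
    exact this
  constructor
  · exact ((((i1.const_mul 2).const_mul _).add (i2.const_mul _)).const_mul _ |>.const_mul _).const_mul _
  · rw [integral_const_mul, integral_const_mul, integral_const_mul,
      integral_add ((i1.const_mul 2).const_mul _) (i2.const_mul _), integral_const_mul,
      integral_const_mul, integral_const_mul]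
    have e1 := Measure.integral_comp_mul_left (fun x : ℝ => (1 + x ^ 2)⁻¹) c
    have e2 := Measure.integral_comp_mul_left (fun y : ℝ => (1 + ‖y‖) ^ (-(3 / 2) : ℝ)) (Z ^ k)
    simp only [smul_eq_mul] at e1 e2
    rw [e1, e2, integral_univ_inv_one_add_sq, hK0]

/-- swapping the integrals -/
theorem swapF {n m : ℕ} (F : (Fin n → ℝ) → ℝ → ℝ) (hF0 : ∀ a α, 0 ≤ F a α) (hFc : Continuous (Function.uncurry F))
    (g : ℝ → ℝ) (hg0 : ∀ α, 0 ≤ g α) (hg : Continuous g) :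
    ∫⁻ a : Fin n → ℝ, ENNReal.ofReal (∫ α : ℝ, g α * F a α) ∂(cub m n) ≤
    ∫⁻ α : ℝ, ENNReal.ofReal (g α) * ∫⁻ a : Fin n → ℝ, ENNReal.ofReal (F a α) ∂(cub m n) := by
  have hFc' : ∀ a, Continuous (F a) := fun a => hFc.comp (by fun_prop : Continuous fun α : ℝ => (a, α))
  calc ∫⁻ a : Fin n → ℝ, ENNReal.ofReal (∫ α : ℝ, g α * F a α) ∂(cub m n)
      ≤ ∫⁻ a : Fin n → ℝ, (∫⁻ α : ℝ, ENNReal.ofReal (g α * F a α)) ∂(cub m n) := by
        apply lintegral_mono
        intro a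
        show ENNReal.ofReal (∫ α : ℝ, g α * F a α) ≤ ∫⁻ α : ℝ, ENNReal.ofReal (g α * F a α)
        rw [integral_eq_lintegral_of_nonneg_ae (Filter.Eventually.of_forall fun α => mul_nonneg (hg0 α) (hF0 a α))
          (hg.mul (hFc' a)).aestronglyMeasurable]
        exact ENNReal.ofReal_toReal_le
    _ = ∫⁻ α : ℝ, (∫⁻ a : Fin n → ℝ, ENNReal.ofReal (g α * F a α) ∂(cub m n)) := by
        apply lintegral_lintegral_swap
        apply Measurable.aemeasurable
        apply ENNReal.measurable_ofReal.comp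
        exact ((hg.comp continuous_snd).mul hFc).measurable
    _ = _ := by
        apply lintegral_congr
        intro α
        rw [← lintegral_const_mul' _ _ ENNReal.ofReal_ne_top]
        apply lintegral_congr
        intro a
        rw [ENNReal.ofReal_mul (hg0 α)]

theorem contF {k : ℕ} (b : Fin (k + 1) → ℕ) : Continuous (Function.uncurry
    (fun (a : Fin (k + 1) → ℝ) (α : ℝ) => ‖∏ i, SB k (b i) (α * a i) - ∏ i, MB k (b i) (α * a i)‖ ^ 2)) := by
  have e1 : ∀ i, Continuous fun p : (Fin (k + 1) → ℝ) × ℝ => SB k (b i) (p.2 * p.1 i) :=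
    fun i => (continuous_SB k (b i)).comp (by fun_prop)
  have e2 : ∀ i, Continuous fun p : (Fin (k + 1) → ℝ) × ℝ => MB k (b i) (p.2 * p.1 i) :=
    fun i => (continuous_MB k (b i)).comp (by fun_prop)
  exact (((continuous_finset_prod _ fun i _ => e1 i).sub (continuous_finset_prod _ fun i _ => e2 i)).norm).pow 2

theorem swap {k m : ℕ} {η : ℝ} (b : Fin (k + 1) → ℕ) (h1 : StV1) (hk : 2 ≤ k) (hη : 0 < η) :
    ∫⁻ a : Fin (k + 1) → ℝ, (∫⁻ τ : ℝ, ENNReal.ofReal (((cn k a b η τ : ℝ) - vl k a b η τ) ^ 2)) ∂(cub m (k + 1)) ≤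
    ∫⁻ α : ℝ, ENNReal.ofReal (4 * η ^ 2 * Real.sinc (Real.pi * (2 * η * α)) ^ 2) *
      (∫⁻ a : Fin (k + 1) → ℝ, ENNReal.ofReal
      (‖∏ i, SB k (b i) (α * a i) - ∏ i, MB k (b i) (α * a i)‖ ^ 2) ∂(cub m (k + 1))) := by
  have h5 : Continuous fun α : ℝ => 4 * η ^ 2 * Real.sinc (Real.pi * (2 * η * α)) ^ 2 :=
    continuous_const.mul ((Real.continuous_sinc.comp (by fun_prop)).pow 2)
  have h6 := swapF (m := m) (fun (a : Fin (k + 1) → ℝ) (α : ℝ) =>
    ‖∏ i, SB k (b i) (α * a i) - ∏ i, MB k (b i) (α * a i)‖ ^ 2) (fun _ _ => sq_nonneg _) (contF b) _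
    (fun α => by positivity) h5
  refine le_trans (lintegral_mono fun a => ?_) h6
  refine (h1 k (k + 1) η hk hη a b).trans (le_of_eq ?_)
  congr 1
  rw [← integral_const_mul]
  apply integral_congr_ae
  filter_upwards with α
  ring

theorem v3 (h1 : StV1) (h2 : StV2) : StVar := by
  intro k m η hk hm hη hη1
  obtain ⟨C₂, hC₂, hV2⟩ := h2 k m hk hm
  have hC0 : 0 < C₂ := by linarith
  obtain ⟨K0, hK0⟩ : ∃ K0 : ℝ, K0 = ∫ y : ℝ, (1 + ‖y‖) ^ (-(3 / 2) : ℝ) := ⟨_, rfl⟩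
  have hK0n : 0 ≤ K0 := by rw [hK0]; exact integral_nonneg fun y => by positivity
  obtain ⟨c, hc⟩ : ∃ c : ℝ, c = Real.pi * (2 * η) := ⟨_, rfl⟩
  have hc0 : 0 < c := by have := Real.pi_pos; rw [hc]; positivity
  obtain ⟨W, hW⟩ : ∃ W : ℝ, W = 4 * η ^ 2 * (((k : ℝ) + 1) * (((k : ℝ) + 1) *
    (4 * (2 * C₂) ^ (k + 1) * (2 * (|c⁻¹| * Real.pi)) + 8 * C₂ * (2 * C₂) ^ k * K0))) := ⟨_, rfl⟩
  have hW0 : 0 ≤ W := by rw [hW]; have := Real.pi_pos; positivity
  refine ⟨W + 1, k + 1, by linarith, ?_⟩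
  intro b
  obtain ⟨J, hJ⟩ : ∃ J, J = mx b := ⟨_, rfl⟩
  rw [← hJ]
  obtain ⟨Z, hZ⟩ : ∃ Z : ℝ, Z = (3 : ℝ) ^ J := ⟨_, rfl⟩
  rw [← hZ]
  have hZ1 : 1 ≤ Z := by rw [hZ]; exact one_le_pow₀ (by norm_num)
  have hZ0 : 0 < Z := by linarith
  obtain ⟨L, hLdef⟩ : ∃ L : ℝ, L = C₂ * (1 + J) := ⟨_, rfl⟩
  have hJ1 : (1 : ℝ) ≤ 1 + J := by linarith [(Nat.cast_nonneg J : (0 : ℝ) ≤ J)]
  have hL1 : 1 ≤ L := by rw [hLdef]; nlinarith
  have hCL : C₂ ≤ L := by rw [hLdef]; nlinarith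
  have hL0 : 0 < L := by linarith
  have hbJ : ∀ i, b i ≤ J := fun i => by rw [hJ]; exact Finset.le_sup (f := b) (Finset.mem_univ i)
  obtain ⟨hGi, hGv⟩ := majI k (4 * (2 * L * Z) ^ (k + 1)) (8 * L * (2 * L) ^ k * Z ^ (2 * k + 1)) η hc0 hZ0 hK0
  have hae : ∀ᵐ α : ℝ, α ≠ 0 := by
    rw [ae_iff]
    simp
  refine (swap b h1 hk hη).trans ?_
  calc _ ≤ ∫⁻ α : ℝ, ENNReal.ofReal (4 * η ^ 2 * ((k + 1) * ((k + 1) *
        ((4 * (2 * L * Z) ^ (k + 1)) * (2 * (1 + (c * α) ^ 2)⁻¹) +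
      (8 * L * (2 * L) ^ k * Z ^ (2 * k + 1)) * (1 + ‖Z ^ k * α‖) ^ (-(3 / 2) : ℝ))))) := by
        apply lintegral_mono_ae
        filter_upwards [hae] with α hα
        have hVi := fun i => hV2 (b i) J α (hbJ i) hα
        rw [← hZ, ← hLdef] at hVi
        obtain ⟨X, hX0, hX1, hX2⟩ := key1 (m := m) hk b hα hL1 hZ1 hCL (fun i => (hVi i).1) (fun i => (hVi i).2.1)
          (fun i => (hVi i).2.2.1) (fun i => (hVi i).2.2.2.1) (fun i => (hVi i).2.2.2.2)
        refine (mul_le_mul_right hX1 _).trans ?_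
        rw [← ENNReal.ofReal_mul (by positivity)]
        apply ENNReal.ofReal_le_ofReal
        have hs := sinc_bound (Real.pi * (2 * η * α))
        have hs' : Real.sinc (Real.pi * (2 * η * α)) ^ 2 ≤ 1 := by
          rw [← sq_abs]; exact pow_le_one₀ (abs_nonneg _) (Real.abs_sinc_le_one _)
        have hcα : Real.pi * (2 * η * α) = c * α := by rw [hc]; ring
        have hn : ‖Z ^ k * α‖ = Z ^ k * |α| := by
          rw [norm_mul, Real.norm_eq_abs, Real.norm_eq_abs, abs_of_nonneg (by positivity)]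
        have h6 := hX2 _ _ (sq_nonneg _) hs' hs
        rw [hn, ← hcα]
        have e2 : 4 * η ^ 2 * Real.sinc (Real.pi * (2 * η * α)) ^ 2 * (((k : ℝ) + 1) * ((k + 1) * X)) =
          4 * η ^ 2 * ((k + 1) * ((k + 1) * (Real.sinc (Real.pi * (2 * η * α)) ^ 2 * X))) := by ring
        rw [e2]
        apply mul_le_mul_of_nonneg_left _ (by positivity)
        apply mul_le_mul_of_nonneg_left _ (by positivity)
        exact mul_le_mul_of_nonneg_left h6 (by positivity)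
    _ = _ := by
        rw [← ofReal_integral_eq_lintegral_ofReal hGi]
        filter_upwards with α
        positivity
    _ ≤ _ := by
        apply ENNReal.ofReal_le_ofReal
        rw [hGv]
        have hZk : |(Z ^ k)⁻¹| = (Z ^ k)⁻¹ := abs_of_nonneg (by positivity)
        have e1 : 4 * η ^ 2 * ((k + 1) * ((k + 1) * ((4 * (2 * L * Z) ^ (k + 1)) * (2 * (|c⁻¹| * Real.pi)) +
            8 * L * (2 * L) ^ k * Z ^ (2 * k + 1) * (|(Z ^ k)⁻¹| * K0)))) =
            W * (1 + (J : ℝ)) ^ (k + 1) * Z ^ (k + 1) := by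
          rw [hZk, hW, hLdef]
          have e2 : Z ^ (2 * k + 1) * ((Z ^ k)⁻¹ * K0) = Z ^ (k + 1) * K0 := by
            have : Z ^ (2 * k + 1) = Z ^ k * Z ^ (k + 1) := by rw [← pow_add]; congr 1; ring
            rw [this]
            field_simp
          have e3 : 8 * (C₂ * (1 + J)) * (2 * (C₂ * (1 + J))) ^ k * Z ^ (2 * k + 1) *
              ((Z ^ k)⁻¹ * K0) = 8 * (C₂ * (1 + J)) * (2 * (C₂ * (1 + J))) ^ k *
              (Z ^ (2 * k + 1) * ((Z ^ k)⁻¹ * K0)) := by ring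
          rw [e3, e2]
          generalize (1 + (J : ℝ)) = j
          ring
        rw [e1]
        have hZp : 0 ≤ (1 + (J : ℝ)) ^ (k + 1) * Z ^ (k + 1) := by positivity
        nlinarith

end Pool.Agent.K7.H99.AG
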